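import Pool.Agent.Y560.TG.Stm

/-! Project TG: the structure as an ordered sum of the classes over a point (SHA). -/

set_option autoImplicit false

namespace Pool.Agent.Y290.TG.Sha

open Set MeasureTheory
open Pool.Agent.H899R2.VP (St Adj PIso BF IsoOn idOn inv comp zipSet)
open Pool.Agent.H533R2.VO (RS lift put OS Ic RIso Dich VC BlkV S_FINAL)
open Pool.Agent.H566P (ar R2 v2 a0 a1 lt ac co mk LA LL MB lab sh prec pull S_ACC S_MSG)
open Pool.Agent.Y560.TG

/-- the data: everything needed for the ordered sum -/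
structure D (Λ : ℕ → ℕ → Prop) (Y : R2) (y : ℕ) (F ρ : ℕ → ℕ) : Prop where
  irr : ∀ x, ¬ lt Y x x
  tr : ∀ x y z, lt Y x y → lt Y y z → lt Y x z
  tot : ∀ x y, x ≠ y → lt Y x y ∨ lt Y y x
  g1 : ∀ v, v ∈ Ob Y y v
  g2 : ∀ v x, x ∈ Ob Y y v → Ob Y y x = Ob Y y v
  g3 : ∀ n v x z, ac Y n x z → (x ∈ Ob Y y v ↔ z ∈ Ob Y y v)
  g4 : ∀ v x w, x ∈ Ob Y y v → w ∈ Ob Y y v → sl Y y x w → ∀ z, ¬ lt Y z x → ¬ lt Y w z →
    z ∈ Ob Y y v
  g5 : ∀ v, ∀ x ∈ Ob Y y v, ∀ x' ∈ Ob Y y v, sl Y y x x' → ∀ w ∉ Ob Y y v,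
    (lt Y x w ↔ lt Y x' w)
  g13 : ∀ v w, ¬ sl Y y v w → (lt Y v w ↔ ∃ k, (¬ Q Y y (2 * k) v ∧ Q Y y (2 * k) w) ∨
    (¬ Q Y y (2 * k) v ∧ ¬ Q Y y (2 * k + 1) v ∧ Q Y y (2 * k + 1) w))
  fl : ∀ z i, fl Λ Y y z i ↔ i = F z
  Fsl : ∀ x x', sl Y y x x' → F x = F x'
  FOb : ∀ x x', x ∈ Ob Y y x' → F x = F x'
  ρo : ∀ z, ∃ n, ac Y n z (ρ z)
  ρl : ∀ z m, Q Y y m (ρ z) ↔ Λ (F z) m
  K : ∀ a b, b ∉ Ob Y y a → ∀ n m n' m' x x' z z', ac Y n a x → ac Y m b x' → sl Y y x x' →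
    ac Y n' a z → ac Y m' b z' → sl Y y z z' → lt Y x x' → lt Y z z'
  one : ∃ n, ∀ x, ac Y n x x

section
variable {Λ : ℕ → ℕ → Prop} {Y : R2} {y : ℕ} {F ρ : ℕ → ℕ}

theorem D.ρOb (h : D Λ Y y F ρ) (v z : ℕ) : ρ z ∈ Ob Y y v ↔ z ∈ Ob Y y v := by
  obtain ⟨n, hn⟩ := h.ρo z
  exact (h.g3 n v z _ hn).symm

theorem D.sym (h : D Λ Y y F ρ) {a b : ℕ} (hab : a ∈ Ob Y y b) : b ∈ Ob Y y a := by
  rw [h.g2 _ _ hab]; exact h.g1 b

theorem D.ρsl (h : D Λ Y y F ρ) {a b : ℕ} (e : F a = F b) : sl Y y (ρ a) (ρ b) := by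
  intro m
  rw [h.ρl, h.ρl, e]

theorem D.bel_iff (h : D Λ Y y F ρ) (a b : ℕ) :
    bel Λ Y y a b ↔ F a < F b ∨ (F a = F b ∧ b ∉ Ob Y y a ∧ lt Y (ρ a) (ρ b)) := by
  unfold bel
  simp only [h.fl]
  constructor
  · rintro (⟨i, j, rfl, rfl, hlt⟩ | ⟨⟨i, rfl, hi⟩, hb, n, m, x, x', h1, h2, h3, h4⟩)
    · exact Or.inl hlt
    · right
      refine ⟨hi, hb, ?_⟩
      obtain ⟨n', hn'⟩ := h.ρo a
      obtain ⟨m', hm'⟩ := h.ρo b
      exact h.K a b hb n m n' m' x x' _ _ h1 h2 h3 hn' hm' (h.ρsl hi) h4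
  · rintro (hlt | ⟨e, hb, hlt⟩)
    · exact Or.inl ⟨_, _, rfl, rfl, hlt⟩
    · right
      refine ⟨⟨F a, rfl, e⟩, hb, ?_⟩
      obtain ⟨n', hn'⟩ := h.ρo a
      obtain ⟨m', hm'⟩ := h.ρo b
      exact ⟨n', m', _, _, hn', hm', h.ρsl e, hlt⟩

theorem adj (a b : ℕ) : Adj (sha Λ Y y) a b ↔ bel Λ Y y a b := by
  unfold Adj sha
  simp only [decide_eq_true_eq]

theorem D.ρne (h : D Λ Y y F ρ) {a b : ℕ} (hab : b ∉ Ob Y y a) : ρ a ≠ ρ b := by
  intro e
  apply hab
  rw [← h.ρOb, ← e, h.ρOb]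
  exact h.g1 a

theorem D.inc (h : D Λ Y y F ρ) (a b : ℕ) :
    (¬ bel Λ Y y a b ∧ ¬ bel Λ Y y b a) ↔ b ∈ Ob Y y a := by
  rw [h.bel_iff, h.bel_iff]
  constructor
  · rintro ⟨h1, h2⟩
    by_contra hb
    have e : F a = F b := by
      rcases lt_trichotomy (F a) (F b) with h3 | h3 | h3
      · exact absurd (Or.inl h3) h1
      · exact h3
      · exact absurd (Or.inl h3) h2
    rcases h.tot _ _ (h.ρne hb) with h3 | h3
    · exact h1 (Or.inr ⟨e, hb, h3⟩)
    · exact h2 (Or.inr ⟨e.symm, fun h4 => hb (h.sym h4), h3⟩)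
  · intro hb
    have e := h.FOb _ _ hb
    constructor
    · rintro (h1 | ⟨-, h2, -⟩)
      · omega
      · exact h2 hb
    · rintro (h1 | ⟨-, h2, -⟩)
      · omega
      · exact h2 (h.sym hb)

theorem D.le_lt (h : D Λ Y y F ρ) {x y' z : ℕ} (h1 : ¬ lt Y y' x) (h2 : lt Y y' z) :
    lt Y x z := by
  by_cases e : x = y'
  · rwa [e]
  · rcases h.tot x y' e with h3 | h3
    · exact h.tr _ _ _ h3 h2
    · exact absurd h3 h1

theorem D.asymm (h : D Λ Y y F ρ) {x z : ℕ} (h1 : lt Y x z) : ¬ lt Y z x :=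
  fun h2 => h.irr _ (h.tr _ _ _ h1 h2)

theorem D.os (h : D Λ Y y F ρ) (h0 : ∀ n x z, ac Y n x z → z ∈ Ob Y y x) :
    OS (sha Λ Y y) := by
  constructor
  · intro x h1
    rw [adj, h.bel_iff] at h1
    rcases h1 with h1 | ⟨-, h2, -⟩
    · omega
    · exact h2 (h.g1 x)
  · intro a b c h1 h2
    rw [adj, h.bel_iff] at h1 h2 ⊢
    rcases h1 with h1 | ⟨e1, h1, h1'⟩
    · rcases h2 with h2 | ⟨e2, h2, h2'⟩
      · left; omega
      · left; omega
    · rcases h2 with h2 | ⟨e2, h2, h2'⟩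
      · left; omega
      · right
        refine ⟨e1.trans e2, fun h3 => h1 ?_, h.tr _ _ _ h1' h2'⟩
        rw [← h.ρOb]
        apply h.g4 a (ρ a) (ρ c)
        · rw [h.ρOb]; exact h.g1 a
        · rw [h.ρOb]; exact h3
        · exact h.ρsl (e1.trans e2)
        · exact h.asymm h1'
        · exact h.asymm h2'
  · intro a b c h1
    rw [adj, h.bel_iff] at h1
    rw [adj, adj, h.bel_iff, h.bel_iff]
    rcases h1 with h1 | ⟨e1, h1, h1'⟩
    · by_cases h2 : F a < F b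
      · exact Or.inl (Or.inl h2)
      · exact Or.inr (Or.inl (by omega))
    · by_cases h2 : F a < F b
      · exact Or.inl (Or.inl h2)
      by_cases h3 : F b < F c
      · exact Or.inr (Or.inl h3)
      have e2 : F a = F b := by omega
      have e3 : F b = F c := by omega
      by_cases hb : b ∈ Ob Y y a
      · right; right
        refine ⟨e3, ?_, ?_⟩
        · rw [h.g2 _ _ hb]; exact h1
        · have := h.g5 a (ρ a) ((h.ρOb _ _).2 (h.g1 a)) (ρ b) ((h.ρOb _ _).2 hb)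
            (h.ρsl e2) (ρ c) (by rw [h.ρOb]; exact h1)
          exact this.1 h1'
      · by_cases h4 : lt Y (ρ a) (ρ b)
        · exact Or.inl (Or.inr ⟨e2, hb, h4⟩)
        · right; right
          refine ⟨e3, fun h5 => hb (h.sym ?_), h.le_lt h4 h1'⟩
          rw [← h.ρOb]
          apply h.g4 b (ρ b) (ρ c)
          · rw [h.ρOb]; exact h.g1 b
          · rw [h.ρOb]; exact h5
          · exact h.ρsl e3
          · exact h4
          · exact h.asymm h1'
  · intro i v hv j k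
    rw [adj]
    have key : ∀ j, v j ∈ Ob Y y (a0 v) := by
      unfold sha at hv
      simp only at hv
      unfold Pool.Agent.H566P.mk at hv
      simp only [decide_eq_true_eq] at hv
      intro j
      by_cases hi : i = 0 ∨ i % 2 = 1
      · have har : ar i = 2 := by unfold ar; rw [if_pos hi]
        have hsim : a1 v ∈ Ob Y y (a0 v) := by
          rcases hi with hi | hi
          · rw [if_pos hi] at hv
            exact hv.2
          · rw [if_neg (by omega), if_pos hi] at hv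
            exact h0 _ _ _ hv
        by_cases hj : j.1 = 0
        · have : v j = a0 v := by
            unfold a0
            rw [dif_pos (by omega)]
            congr 1
            exact Fin.ext hj
          rw [this]
          exact h.g1 _
        · have : v j = a1 v := by
            unfold a1
            have hjlt := j.2
            rw [dif_pos (by omega)]
            congr 1
            exact Fin.ext (by simp only; omega)
          rw [this]
          exact hsim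
      · have har : ar i = 1 := by unfold ar; rw [if_neg hi]
        have : v j = a0 v := by
          unfold a0
          have hjlt := j.2
          rw [dif_pos (by omega)]
          congr 1
          exact Fin.ext (by simp only; omega)
        rw [this]
        exact h.g1 _
    have h2 : v k ∈ Ob Y y (v j) := by
      rw [h.g2 _ _ (key j)]; exact key k
    exact ((h.inc _ _).2 h2).1

theorem D.ic (h : D Λ Y y F ρ) (x : ℕ) : Ic (sha Λ Y y) x x = Ob Y y x := by
  ext z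
  change (¬ Adj (sha Λ Y y) z x ∧ ¬ Adj (sha Λ Y y) x z) ↔ _
  rw [adj, adj, and_comm, h.inc]

theorem sha_lt (a b : ℕ) : lt (sha Λ Y y).2 a b ↔ lt Y a b ∧ b ∈ Ob Y y a :=
  lt_mk (fun a b => lt Y a b ∧ b ∈ Ob Y y a) (ac Y) (co (lb Y y)) a b
theorem sha_ac (n a b : ℕ) : ac (sha Λ Y y).2 n a b ↔ ac Y n a b :=
  ac_mk (fun a b => lt Y a b ∧ b ∈ Ob Y y a) (ac Y) (co (lb Y y)) n a b
theorem sha_co (n a : ℕ) : co (sha Λ Y y).2 n a ↔ co (lb Y y) n a :=
  co_mk (fun a b => lt Y a b ∧ b ∈ Ob Y y a) (ac Y) (co (lb Y y)) n a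

theorem D.flat (h : D Λ Y y F ρ) : fla (sha Λ Y y) = Y := by
  apply R2_ext
  · intro a b
    unfold fla
    rw [lt_mk, sha_lt]
    have e1 : (sha Λ Y y).1 a b = true ↔ bel Λ Y y a b := adj a b
    have e2 : (sha Λ Y y).1 b a = true ↔ bel Λ Y y b a := adj b a
    rw [e1, e2]
    have e3 : ∀ k z, co (sha Λ Y y).2 (4 * k + 1) z ↔ Q Y y (2 * k) z := by
      intro k z
      rw [sha_co, lb, show 4 * k + 1 = 2 * (2 * k) + 1 by ring, co_ex_odd]
    have e4 : ∀ k z, co (sha Λ Y y).2 (4 * k + 3) z ↔ Q Y y (2 * k + 1) z := by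
      intro k z
      rw [sha_co, lb, show 4 * k + 3 = 2 * (2 * k + 1) + 1 by ring, co_ex_odd]
    have e5 : ∀ k z, co (sha Λ Y y).2 (2 * k + 1) z ↔ Q Y y k z := by
      intro k z
      rw [sha_co, lb, co_ex_odd]
    simp only [e3, e4, e5]
    by_cases hb : b ∈ Ob Y y a
    · have := (h.inc a b).2 hb
      simp only [hb, this.1, this.2, or_self, false_and, or_false, and_true]
    · have hor : bel Λ Y y a b ∨ bel Λ Y y b a := by
        by_contra h1
        rw [not_or] at h1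
        exact hb ((h.inc a b).1 h1)
      simp only [hb, and_false, false_or, hor, true_and]
      by_cases hs : sl Y y a b
      · have hs' : ∀ m, Q Y y m a ↔ Q Y y m b := hs
        have e : F a = F b := h.Fsl _ _ hs
        have h6 : bel Λ Y y a b ↔ lt Y a b := by
          rw [h.bel_iff]
          obtain ⟨n, hn⟩ := h.one
          obtain ⟨n', hn'⟩ := h.ρo a
          obtain ⟨m', hm'⟩ := h.ρo b
          constructor
          · rintro (h1 | ⟨-, -, h1⟩)
            · omega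
            · exact h.K a b hb _ _ _ _ _ _ _ _ hn' hm' (h.ρsl e) (hn a) (hn b) hs h1
          · intro h1
            exact Or.inr ⟨e, hb, h.K a b hb _ _ _ _ _ _ _ _ (hn a) (hn b) hs hn' hm'
              (h.ρsl e) h1⟩
        constructor
        · rintro (⟨k, (⟨h1, h2⟩ | ⟨h1, h2, h3⟩)⟩ | ⟨-, h1⟩)
          · exact absurd ((hs' _).2 h2) h1
          · exact absurd ((hs' _).2 h3) h2
          · exact h6.1 h1
        · intro h1
          exact Or.inr ⟨hs', h6.2 h1⟩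
      · rw [h.g13 a b hs]
        constructor
        · rintro (h1 | ⟨h1, -⟩)
          · exact h1
          · exact absurd h1 hs
        · exact Or.inl
  · intro n a b
    unfold fla
    rw [ac_mk, sha_ac]
  · intro n a
    unfold fla
    rw [co_mk, sha_co, lb, co_ex_even]

end

theorem t_SHA (hG : S_GEO) : S_SHA := by
  intro Γ _ g hg Λ Y y hY hΛ
  obtain ⟨G1, G2, G3, G4, G5, -, -, -, -, -, G11, G12, G13⟩ := hG Γ g hg Y hY
  obtain ⟨t, ht, -⟩ := MB.la hY
  -- actions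
  have orbOb : ∀ n x z, ac Y n x z → z ∈ Ob Y y x := fun n x z h1 =>
    (G3 n y x x z h1).1 (G1 y x)
  -- the classes of labels
  have lcact : ∀ γ z i, lc Λ Y y z i → lc Λ Y y (t γ z) i := by
    rintro γ z i ⟨n, z', h1, h2⟩
    obtain ⟨k, hk⟩ := hg (g n * γ⁻¹)
    refine ⟨k, z', ?_, h2⟩
    rw [la_ac ht] at h1 ⊢
    rw [hk, la_mul ht, la_inv ht, h1]
  have lcsl : ∀ x x' i, sl Y y x x' → lc Λ Y y x i → lc Λ Y y x' i := by
    rintro x x' i hs ⟨n, z', h1, h2⟩
    refine ⟨n, t (g n) x', (la_ac ht _ _ _).2 rfl, ?_⟩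
    intro m
    rw [← h2 m]
    exact ((G11 y x x' n z' _ h1 ((la_ac ht _ _ _).2 rfl)).1 hs m).symm
  have lcOb : ∀ x x' i, x ∈ Ob Y y x' → lc Λ Y y x' i → lc Λ Y y x i := by
    intro x x' i hx h1
    obtain ⟨n, w, h2, h3⟩ := G12 y x' x hx
    apply lcsl w x i (sl_symm h3)
    rw [la_ac ht] at h2
    rw [← h2]
    exact lcact _ _ _ h1
  have hex : ∀ z, ∃ i, lc Λ Y y z i := by
    intro z
    obtain ⟨i, hi⟩ := hΛ z
    obtain ⟨k, hk⟩ := hg 1
    refine ⟨i, k, z, ?_, hi⟩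
    rw [la_ac ht, hk, ht.one]
  classical
  set F : ℕ → ℕ := fun z => Nat.find (hex z) with hF
  have hFl : ∀ z, lc Λ Y y z (F z) := fun z => Nat.find_spec (hex z)
  have hFm : ∀ z j, j < F z → ¬ lc Λ Y y z j := fun z j hj => Nat.find_min (hex z) hj
  have hfl : ∀ z i, fl Λ Y y z i ↔ i = F z := by
    intro z i
    constructor
    · rintro ⟨h1, h2⟩
      rcases lt_trichotomy i (F z) with h3 | h3 | h3
      · exact absurd h1 (hFm z i h3)
      · exact h3
      · exact absurd (hFl z) (h2 _ h3)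
    · rintro rfl
      exact ⟨hFl z, hFm z⟩
  have hFeq : ∀ x x', (∀ i, lc Λ Y y x i → lc Λ Y y x' i) →
      (∀ i, lc Λ Y y x' i → lc Λ Y y x i) → F x = F x' := by
    intro x x' h1 h2
    rcases lt_trichotomy (F x) (F x') with h3 | h3 | h3
    · exact absurd (h1 _ (hFl x)) (hFm _ _ h3)
    · exact h3
    · exact absurd (h2 _ (hFl x')) (hFm _ _ h3)
  choose ρn ρ hρ1 hρ2 using hFl
  have hD : D Λ Y y F ρ := by
    refine ⟨ht.irr, ht.tr, ht.tot, G1 y, G2 y, fun n v x z h1 => G3 n y v x z h1, G4 y,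
      fun v x hx x' hx' hs w hw => (G5 y v x hx x' hx' hs w hw).1, G13 y, hfl, ?_, ?_, ?_, ?_,
      ?_, ?_⟩
    · intro x x' hs
      exact hFeq x x' (fun i => lcsl x x' i hs) (fun i => lcsl x' x i (sl_symm hs))
    · intro x x' hx
      have hx' : x' ∈ Ob Y y x := by rw [G2 y _ _ hx]; exact G1 y x'
      exact hFeq x x' (fun i => lcOb x' x i hx') (fun i => lcOb x x' i hx)
    · intro z
      exact ⟨ρn z, hρ1 z⟩
    · intro z m
      exact hρ2 z m
    · intro a b hb n m n' m' x x' x1 x1' h1 h2 hs h3 h4 hs' hlt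
      rw [la_ac ht] at h1 h2 h3 h4
      by_contra hcon
      have hne : x1 ≠ x1' := by
        intro e
        apply hb
        have e1 : x1' ∈ Ob Y y a := by
          rw [← e]
          exact orbOb n' a x1 ((la_ac ht _ _ _).2 h3)
        exact (G3 m' y a b x1' ((la_ac ht _ _ _).2 h4)).2 e1
      have hlt' : lt Y x1' x1 := (ht.tot _ _ hne).resolve_left hcon
      obtain ⟨k, hk⟩ := hg (g n * (g n')⁻¹)
      have e1 : t (g k) x1 = x := by
        rw [hk, la_mul ht, ← h3, la_inv ht, h1]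
      have hs2 : sl Y y (t (g k) x1) (t (g k) x1') :=
        (G11 y x1 x1' k _ _ ((la_ac ht _ _ _).2 rfl) ((la_ac ht _ _ _).2 rfl)).1 hs'
      have hlt2 : lt Y (t (g k) x1') x := by
        rw [← e1]; exact (la_lt ht _ _ _).2 hlt'
      rw [e1] at hs2
      have o1 : t (g k) x1' ∈ Ob Y y b := by
        apply (G3 k y b x1' _ ((la_ac ht _ _ _).2 rfl)).1
        exact orbOb m' b x1' ((la_ac ht _ _ _).2 h4)
      have o2 : x' ∈ Ob Y y b := orbOb m b x' ((la_ac ht _ _ _).2 h2)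
      have o3 : x ∈ Ob Y y b := by
        apply G4 y b (t (g k) x1') x' o1 o2 (sl_trans (sl_symm hs2) hs)
        · exact la_asymm ht hlt2
        · exact la_asymm ht hlt
      have o4 : a ∈ Ob Y y b := (G3 n y b a x ((la_ac ht _ _ _).2 h1)).2 o3
      apply hb
      rw [G2 y _ _ o4]
      exact G1 y b
    · obtain ⟨k, hk⟩ := hg 1
      exact ⟨k, fun x => by rw [la_ac ht, hk, ht.one]⟩
  exact ⟨hD.os orbOb, hD.ic, hD.flat⟩

end Pool.Agent.Y290.TG.Sha
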